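import Mathlib

set_option autoImplicit false

/-!
An astral 4-configuration whose underlying combinatorial configuration has a rational realization.
-/

namespace Pool.Agent.Results.MP_b542c4_co.AstralRational

/-! ### The notions of the problem -/

/-- A line of the affine plane `F × F` over a field `F`. -/
def IsLine {F : Type} [Field F] (s : Set (F × F)) : Prop :=
  ∃ a b c : F, (a ≠ 0 ∨ b ≠ 0) ∧ s = {z : F × F | a * z.1 + b * z.2 = c}

/-- A combinatorial 4-configuration `(n_4)`: `n` points, `n` lines, every line is incident with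
exactly 4 points, every point is incident with exactly 4 lines, and two distinct points are never
incident with two different common lines. -/
def IsFourConfiguration (n : ℕ) {P L : Type} (I : P → L → Prop) : Prop :=
  0 < n ∧ Nat.card P = n ∧ Nat.card L = n ∧
  (∀ l : L, {p : P | I p l}.ncard = 4) ∧
  (∀ p : P, {l : L | I p l}.ncard = 4) ∧
  ∀ p q : P, p ≠ q → ∀ l l' : L, I p l → I q l → I p l' → I q l' → l = l'

/-- A geometric realization over the field `F` of an incidence relation `I`: pairwise distinct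
points, pairwise distinct lines, and a point lies on a line exactly when they are incident. -/
structure Realization {P L : Type} (I : P → L → Prop) (F : Type) [Field F] where
  /-- the realized points -/
  pt : P → F × F
  /-- the realized lines -/
  ln : L → Set (F × F)
  isLine_ln : ∀ l, IsLine (ln l)
  pt_injective : Function.Injective pt
  ln_injective : Function.Injective ln
  mem_iff : ∀ p l, pt p ∈ ln l ↔ I p l

/-- The squared Euclidean distance of the real plane `ℝ × ℝ`. -/
def sqDist (x y : ℝ × ℝ) : ℝ := (x.1 - y.1) ^ 2 + (x.2 - y.2) ^ 2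

/-- The symmetry group of a real realization: all isometries of the Euclidean plane `ℝ × ℝ` which
map the set of its points onto itself and the set of its lines onto itself. -/
def symmetryGroup {P L : Type} {I : P → L → Prop} (R : Realization I ℝ) :
    Subgroup (Equiv.Perm (ℝ × ℝ)) where
  carrier := {g | (∀ x y, sqDist (g x) (g y) = sqDist x y) ∧
    (g '' Set.range R.pt = Set.range R.pt) ∧
    ((fun s : Set (ℝ × ℝ) => g '' s) '' Set.range R.ln = Set.range R.ln)}
  mul_mem' := by
    rintro g h ⟨hg1, hg2, hg3⟩ ⟨hh1, hh2, hh3⟩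
    refine ⟨fun x y => ?_, ?_, ?_⟩
    · rw [Equiv.Perm.mul_apply, Equiv.Perm.mul_apply, hg1, hh1]
    · rw [Equiv.Perm.coe_mul, Set.image_comp, hh2, hg2]
    · have : (fun s : Set (ℝ × ℝ) => (g * h : Equiv.Perm (ℝ × ℝ)) '' s) =
          (fun s : Set (ℝ × ℝ) => g '' s) ∘ (fun s : Set (ℝ × ℝ) => h '' s) := by
        funext s
        show (g * h : Equiv.Perm (ℝ × ℝ)) '' s = g '' (h '' s)
        rw [Equiv.Perm.coe_mul, Set.image_comp]
      rw [this, Set.image_comp, hh3, hg3]
  one_mem' := by
    refine ⟨fun x y => rfl, ?_, ?_⟩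
    · simp
    · simp
  inv_mem' := by
    rintro g ⟨hg1, hg2, hg3⟩
    refine ⟨fun x y => ?_, ?_, ?_⟩
    · have := hg1 (g⁻¹ x) (g⁻¹ y)
      simpa using this.symm
    · conv_lhs => rw [← hg2]
      rw [← Set.image_comp]
      simp
    · conv_lhs => rw [← hg3]
      rw [← Set.image_comp]
      have : ((fun s : Set (ℝ × ℝ) => (g⁻¹ : Equiv.Perm (ℝ × ℝ)) '' s) ∘
          (fun s : Set (ℝ × ℝ) => g '' s)) = id := by
        funext s
        show (g⁻¹ : Equiv.Perm (ℝ × ℝ)) '' (g '' s) = s
        rw [← Set.image_comp]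
        simp
      rw [this, Set.image_id]

/-- `s` is the set of vertices of a regular `m`-gon of the Euclidean plane. -/
def IsRegularPolygon (m : ℕ) (s : Set (ℝ × ℝ)) : Prop :=
  ∃ (c : ℝ × ℝ) (r θ : ℝ), 0 < r ∧
    s = Set.range (fun j : Fin m =>
      (c.1 + r * Real.cos (θ + 2 * Real.pi * (j : ℕ) / m),
       c.2 + r * Real.sin (θ + 2 * Real.pi * (j : ℕ) / m)))

/-- The real realization `R` is a `k`-astral 4-configuration `(n_4)` with `n = k * m`:
its symmetry group is the dihedral group of order `2 m`; this group has exactly `k` orbits of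
points (the classes of `cp`) and exactly `k` orbits of lines (the classes of `cl`), each of
size `m`; every orbit of points is the vertex set of a regular `m`-gon; and every point (line) is
incident with two lines (points) from each of two orbits. -/
def IsKAstral (k m : ℕ) {P L : Type} {I : P → L → Prop} (R : Realization I ℝ) : Prop :=
  2 ≤ k ∧ 2 ≤ m ∧ IsFourConfiguration (k * m) I ∧
  Nonempty (symmetryGroup R ≃* DihedralGroup m) ∧
  ∃ (cp : P → Fin k) (cl : L → Fin k),
    Function.Surjective cp ∧ Function.Surjective cl ∧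
    (∀ p q : P, cp p = cp q ↔ ∃ g ∈ symmetryGroup R, g (R.pt p) = R.pt q) ∧
    (∀ l l' : L, cl l = cl l' ↔ ∃ g ∈ symmetryGroup R, g '' (R.ln l) = R.ln l') ∧
    (∀ a : Fin k, {p : P | cp p = a}.ncard = m) ∧
    (∀ a : Fin k, {l : L | cl l = a}.ncard = m) ∧
    (∀ a : Fin k, IsRegularPolygon m (R.pt '' {p : P | cp p = a})) ∧
    (∀ p : P, ∃ a b : Fin k, a ≠ b ∧
      {l : L | I p l ∧ cl l = a}.ncard = 2 ∧ {l : L | I p l ∧ cl l = b}.ncard = 2) ∧
    (∀ l : L, ∃ a b : Fin k, a ≠ b ∧
      {p : P | I p l ∧ cp p = a}.ncard = 2 ∧ {p : P | I p l ∧ cp p = b}.ncard = 2)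

/-! ### The combinatorial configuration `(24_4)` -/

/-- Indices of the points and of the lines: a class (`false` or `true`) and a residue mod 12. -/
abbrev Idx : Type := Bool × ZMod 12

/-- The incidence relation of the configuration `12#(5,4;1,4)`. -/
def inc : Idx → Idx → Bool
  | (false, i), (false, j) => i == j || i == j + 5
  | (true, i), (false, j) => i == j || i == j + 4
  | (true, i), (true, j) => i == j || i == j + 1
  | (false, i), (true, j) => i == j - 1 || i == j + 3

/-- The incidence relation as a proposition. -/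
def Inc (p l : Idx) : Prop := inc p l = true

instance (p l : Idx) : Decidable (Inc p l) := by unfold Inc; infer_instance

theorem inc_card_left : ∀ l : Idx, (Finset.univ.filter (fun p : Idx => Inc p l)).card = 4 := by
  decide

theorem inc_card_right : ∀ p : Idx, (Finset.univ.filter (fun l : Idx => Inc p l)).card = 4 := by
  decide


theorem ncard_filter {α : Type} [Fintype α] (q : α → Prop) [DecidablePred q] :
    {x : α | q x}.ncard = (Finset.univ.filter q).card := by
  rw [← Set.ncard_coe_finset]
  congr 1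
  ext x
  simp

theorem inc_linear : ∀ p q : Idx, p ≠ q → ∀ l l' : Idx,
    Inc p l → Inc q l → Inc p l' → Inc q l' → l = l' := by
  have h : ∀ p l : Idx, Inc p l → ∀ l' : Idx, Inc p l' → l ≠ l' →
      ∀ q : Idx, Inc q l → Inc q l' → p = q := by
    decide
  intro p q hpq l l' h1 h2 h3 h4
  by_contra hl
  exact hpq (h p l h1 l' h3 hl q h2 h4)

theorem inc_ext_point : ∀ p q : Idx, (∀ l, Inc p l ↔ Inc q l) → p = q := by
  decide

theorem inc_ext_line : ∀ l l' : Idx, (∀ p, Inc p l ↔ Inc p l') → l = l' := by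
  decide

theorem isFour : IsFourConfiguration (2 * 12) Inc := by
  refine ⟨by norm_num, ?_, ?_, ?_, ?_, inc_linear⟩
  · rw [Nat.card_eq_fintype_card]; rfl
  · rw [Nat.card_eq_fintype_card]; rfl
  · intro l
    rw [ncard_filter]
    exact inc_card_left l
  · intro p
    rw [ncard_filter]
    exact inc_card_right p

/-! ### Exact coordinates in the ring `ℤ[√3]` -/

/-- Twice the cosine of `j * π / 6`. -/
def c2 (j : ZMod 12) : ℤ√3 :=
  (![⟨2, 0⟩, ⟨0, 1⟩, ⟨1, 0⟩, ⟨0, 0⟩, ⟨-1, 0⟩, ⟨0, -1⟩,
    ⟨-2, 0⟩, ⟨0, -1⟩, ⟨-1, 0⟩, ⟨0, 0⟩, ⟨1, 0⟩, ⟨0, 1⟩] : Fin 12 → ℤ√3) j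

/-- Twice the sine of `j * π / 6`. -/
def s2 (j : ZMod 12) : ℤ√3 := c2 (j - 3)

/-- Twice the first coordinate of a point. -/
def px : Idx → ℤ√3
  | (false, i) => c2 i
  | (true, i) => c2 (i + 3) - c2 (i + 4)

/-- Twice the second coordinate of a point. -/
def py : Idx → ℤ√3
  | (false, i) => s2 i
  | (true, i) => s2 (i + 3) - s2 (i + 4)

/-- Twice the first coordinate of the normal vector of a line. -/
def lx : Idx → ℤ√3
  | (false, i) => c2 i + ⟨2, 1⟩ * c2 (i + 3)
  | (true, i) => 2 * c2 (i + 1)

/-- Twice the second coordinate of the normal vector of a line. -/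
def ly : Idx → ℤ√3
  | (false, i) => s2 i + ⟨2, 1⟩ * s2 (i + 3)
  | (true, i) => 2 * s2 (i + 1)

theorem exact_inc : ∀ p l : Idx, px p * lx l + py p * ly l = 4 ↔ Inc p l := by
  decide

/-- Addition formula for the cosine. -/
theorem c2_add : ∀ i j : ZMod 12, 2 * c2 (i + j) = c2 i * c2 j - s2 i * s2 j := by decide

/-- Addition formula for the sine. -/
theorem s2_add : ∀ i j : ZMod 12, 2 * s2 (i + j) = s2 i * c2 j + c2 i * s2 j := by decide

theorem c2_neg : ∀ i : ZMod 12, c2 (-i) = c2 i := by decide

theorem s2_neg : ∀ i : ZMod 12, s2 (-i) = - s2 i := by decide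

theorem c2_sq : ∀ i : ZMod 12, c2 i * c2 i + s2 i * s2 i = 4 := by decide

/-- The embedding of `ℤ[√3]` in the real numbers. -/
noncomputable def φ : ℤ√3 →+* ℝ := Zsqrtd.toReal (by norm_num)

theorem φ_injective : Function.Injective φ := by
  apply Zsqrtd.toReal_injective
  intro n h
  have h1 : n.natAbs < 2 := by
    by_contra h2
    have h3 : 2 ≤ n.natAbs := by omega
    have h4 : (n.natAbs : ℤ) * n.natAbs = 3 := by
      rw [h, ← Int.natAbs_mul_self' n]
    have h3' : (2 : ℤ) ≤ (n.natAbs : ℤ) := by exact_mod_cast h3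
    nlinarith
  have h5 : n.natAbs = 0 ∨ n.natAbs = 1 := by omega
  have h6 : (n.natAbs : ℤ) * n.natAbs = 3 := by
    rw [h, ← Int.natAbs_mul_self' n]
  rcases h5 with h5 | h5 <;> rw [h5] at h6 <;> norm_num at h6

theorem φ_mk (a b : ℤ) : φ ⟨a, b⟩ = a + b * Real.sqrt 3 := by
  simp [φ, Zsqrtd.toReal, Zsqrtd.lift]

/-- Cosine of `j * π / 6`. -/
noncomputable def C (j : ZMod 12) : ℝ := φ (c2 j) / 2

/-- Sine of `j * π / 6`. -/
noncomputable def S (j : ZMod 12) : ℝ := φ (s2 j) / 2

theorem C_add (i j : ZMod 12) : C (i + j) = C i * C j - S i * S j := by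
  have h := congrArg φ (c2_add i j)
  simp only [map_mul, map_sub, map_ofNat] at h
  unfold C S
  linarith

theorem S_add (i j : ZMod 12) : S (i + j) = S i * C j + C i * S j := by
  have h := congrArg φ (s2_add i j)
  simp only [map_mul, map_add, map_ofNat] at h
  unfold C S
  linarith

theorem C_neg (i : ZMod 12) : C (-i) = C i := by unfold C; rw [c2_neg]

theorem S_neg (i : ZMod 12) : S (-i) = - S i := by unfold S; rw [s2_neg, map_neg]; ring

theorem C_sq (i : ZMod 12) : C i * C i + S i * S i = 1 := by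
  have h := congrArg φ (c2_sq i)
  simp only [map_mul, map_add, map_ofNat] at h
  unfold C S
  linarith

theorem C_zero : C 0 = 1 := by
  have h : c2 0 = 2 := by decide
  unfold C; rw [h, map_ofNat]; norm_num

theorem S_zero : S 0 = 0 := by
  have h : s2 0 = 0 := by decide
  unfold S; rw [h, map_zero]; norm_num

/-- The points of the real realization. -/
noncomputable def rpt (p : Idx) : ℝ × ℝ := (φ (px p) / 2, φ (py p) / 2)

/-- The normal vectors of the lines of the real realization. -/
noncomputable def rnv (l : Idx) : ℝ × ℝ := (φ (lx l) / 2, φ (ly l) / 2)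

/-- The lines of the real realization. -/
noncomputable def rln (l : Idx) : Set (ℝ × ℝ) :=
  {z | (rnv l).1 * z.1 + (rnv l).2 * z.2 = 1}

theorem rmem_iff (p l : Idx) : rpt p ∈ rln l ↔ Inc p l := by
  rw [← exact_inc]
  simp only [rln, rpt, rnv, Set.mem_ofPred_eq]
  constructor
  · intro h
    apply φ_injective
    rw [map_add, map_mul, map_mul, map_ofNat]
    linarith
  · intro h
    have h2 := congrArg φ h
    rw [map_add, map_mul, map_mul, map_ofNat] at h2
    linarith

theorem lxy_ne : ∀ l : Idx, lx l ≠ 0 ∨ ly l ≠ 0 := by decide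

/-- The astral realization `12#(5,4;1,4)` in the Euclidean plane. -/
noncomputable def R : Realization Inc ℝ where
  pt := rpt
  ln := rln
  isLine_ln := by
    intro l
    refine ⟨(rnv l).1, (rnv l).2, 1, ?_, rfl⟩
    rcases lxy_ne l with h | h
    · left
      intro h2
      apply h
      apply φ_injective
      simp only [rnv] at h2
      rw [map_zero]
      linarith
    · right
      intro h2
      apply h
      apply φ_injective
      simp only [rnv] at h2
      rw [map_zero]
      linarith
  pt_injective := by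
    intro p q h
    apply inc_ext_point
    intro l
    rw [← rmem_iff, ← rmem_iff, h]
  ln_injective := by
    intro l l' h
    apply inc_ext_line
    intro p
    rw [← rmem_iff, ← rmem_iff, h]
  mem_iff := rmem_iff

/-! ### The dihedral group acting on the plane -/

/-- The action of the dihedral group of order 24 on the plane. -/
noncomputable def act : DihedralGroup 12 → ℝ × ℝ → ℝ × ℝ
  | .r j, z => (C j * z.1 - S j * z.2, S j * z.1 + C j * z.2)
  | .sr j, z => (C j * z.1 - S j * z.2, - S j * z.1 - C j * z.2)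

theorem act_one (z : ℝ × ℝ) : act 1 z = z := by
  rw [DihedralGroup.one_def]
  simp [act, C_zero, S_zero]

theorem act_mul (g h : DihedralGroup 12) (z : ℝ × ℝ) : act (g * h) z = act g (act h z) := by
  rcases g with i | i <;> rcases h with j | j
  · rw [DihedralGroup.r_mul_r]
    simp only [act, C_add, S_add, Prod.mk.injEq]
    constructor <;> ring
  · rw [DihedralGroup.r_mul_sr]
    simp only [act, sub_eq_add_neg, C_add, S_add, C_neg, S_neg, Prod.mk.injEq]
    constructor <;> ring
  · rw [DihedralGroup.sr_mul_r]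
    simp only [act, C_add, S_add, Prod.mk.injEq]
    constructor <;> ring
  · rw [DihedralGroup.sr_mul_sr]
    simp only [act, sub_eq_add_neg, C_add, S_add, C_neg, S_neg, Prod.mk.injEq]
    constructor <;> ring

/-- The dihedral group as a group of permutations of the plane. -/
noncomputable def actHom : DihedralGroup 12 →* Equiv.Perm (ℝ × ℝ) where
  toFun g :=
    { toFun := act g
      invFun := act g⁻¹
      left_inv := fun z => by rw [← act_mul, inv_mul_cancel, act_one]
      right_inv := fun z => by rw [← act_mul, mul_inv_cancel, act_one] }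
  map_one' := by
    ext1 z
    exact act_one z
  map_mul' g h := by
    ext1 z
    exact act_mul g h z

theorem actHom_apply (g : DihedralGroup 12) (z : ℝ × ℝ) : actHom g z = act g z := rfl

/-- The scalar product. -/
def sc (x y : ℝ × ℝ) : ℝ := x.1 * y.1 + x.2 * y.2

theorem sc_act (g : DihedralGroup 12) (x y : ℝ × ℝ) : sc (act g x) (act g y) = sc x y := by
  rcases g with i | i
  · have h := C_sq i
    simp only [act, sc]
    linear_combination (x.1 * y.1 + x.2 * y.2) * h
  · have h := C_sq i
    simp only [act, sc]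
    linear_combination (x.1 * y.1 + x.2 * y.2) * h

theorem sqDist_act (g : DihedralGroup 12) (x y : ℝ × ℝ) :
    sqDist (act g x) (act g y) = sqDist x y := by
  rcases g with i | i
  · have h := C_sq i
    simp only [act, sqDist]
    linear_combination ((x.1 - y.1) ^ 2 + (x.2 - y.2) ^ 2) * h
  · have h := C_sq i
    simp only [act, sqDist]
    linear_combination ((x.1 - y.1) ^ 2 + (x.2 - y.2) ^ 2) * h

/-- The action of the dihedral group on the indices of the points. -/
def dP : DihedralGroup 12 → Idx → Idx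
  | .r j, (b, i) => (b, i + j)
  | .sr j, (false, i) => (false, - i - j)
  | .sr j, (true, i) => (true, - i - 1 - j)

/-- The action of the dihedral group on the indices of the lines. -/
def dL : DihedralGroup 12 → Idx → Idx
  | .r j, (b, i) => (b, i + j)
  | .sr j, (false, i) => (false, - i - 5 - j)
  | .sr j, (true, i) => (true, - i - 2 - j)

theorem exact_r : ∀ (j : ZMod 12) (p : Idx),
    2 * px (dP (.r j) p) = c2 j * px p - s2 j * py p ∧
    2 * py (dP (.r j) p) = s2 j * px p + c2 j * py p := by decide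

theorem exact_sr : ∀ (j : ZMod 12) (p : Idx),
    2 * px (dP (.sr j) p) = c2 j * px p - s2 j * py p ∧
    2 * py (dP (.sr j) p) = - s2 j * px p - c2 j * py p := by decide

theorem exact_r' : ∀ (j : ZMod 12) (p : Idx),
    2 * lx (dL (.r j) p) = c2 j * lx p - s2 j * ly p ∧
    2 * ly (dL (.r j) p) = s2 j * lx p + c2 j * ly p := by decide

theorem exact_sr' : ∀ (j : ZMod 12) (p : Idx),
    2 * lx (dL (.sr j) p) = c2 j * lx p - s2 j * ly p ∧
    2 * ly (dL (.sr j) p) = - s2 j * lx p - c2 j * ly p := by decide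

theorem act_rpt (g : DihedralGroup 12) (p : Idx) : act g (rpt p) = rpt (dP g p) := by
  rcases g with j | j
  · obtain ⟨h1, h2⟩ := exact_r j p
    have h1' := congrArg φ h1
    have h2' := congrArg φ h2
    simp only [map_mul, map_sub, map_add, map_ofNat] at h1' h2'
    simp only [act, rpt, C, S, Prod.mk.injEq]
    constructor <;> linarith
  · obtain ⟨h1, h2⟩ := exact_sr j p
    have h1' := congrArg φ h1
    have h2' := congrArg φ h2
    simp only [map_mul, map_sub, map_neg, map_ofNat] at h1' h2'
    simp only [act, rpt, C, S, Prod.mk.injEq]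
    constructor <;> linarith

theorem act_rnv (g : DihedralGroup 12) (l : Idx) : act g (rnv l) = rnv (dL g l) := by
  rcases g with j | j
  · obtain ⟨h1, h2⟩ := exact_r' j l
    have h1' := congrArg φ h1
    have h2' := congrArg φ h2
    simp only [map_mul, map_sub, map_add, map_ofNat] at h1' h2'
    simp only [act, rnv, C, S, Prod.mk.injEq]
    constructor <;> linarith
  · obtain ⟨h1, h2⟩ := exact_sr' j l
    have h1' := congrArg φ h1
    have h2' := congrArg φ h2
    simp only [map_mul, map_sub, map_neg, map_ofNat] at h1' h2'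
    simp only [act, rnv, C, S, Prod.mk.injEq]
    constructor <;> linarith

theorem act_rln (g : DihedralGroup 12) (l : Idx) : actHom g '' (rln l) = rln (dL g l) := by
  ext z
  constructor
  · rintro ⟨y, hy, rfl⟩
    have h : sc (rnv l) y = 1 := hy
    show sc (rnv (dL g l)) (act g y) = 1
    rw [← act_rnv, sc_act, h]
  · intro hz
    have h : sc (rnv (dL g l)) z = 1 := hz
    refine ⟨act g⁻¹ z, ?_, ?_⟩
    · show sc (rnv l) (act g⁻¹ z) = 1
      rw [← sc_act g, ← act_mul, mul_inv_cancel, act_one, act_rnv, h]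
    · rw [actHom_apply, ← act_mul, mul_inv_cancel, act_one]

theorem dP_surj (g : DihedralGroup 12) : Function.Surjective (dP g) := by
  rcases g with j | j
  · rintro ⟨b, i⟩
    exact ⟨(b, i - j), by simp only [dP, Prod.mk.injEq, true_and]; ring⟩
  · rintro ⟨b, i⟩
    cases b
    · exact ⟨(false, - i - j), by simp only [dP, Prod.mk.injEq, true_and]; ring⟩
    · exact ⟨(true, - i - 1 - j), by simp only [dP, Prod.mk.injEq, true_and]; ring⟩

theorem dL_surj (g : DihedralGroup 12) : Function.Surjective (dL g) := by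
  rcases g with j | j
  · rintro ⟨b, i⟩
    exact ⟨(b, i - j), by simp only [dL, Prod.mk.injEq, true_and]; ring⟩
  · rintro ⟨b, i⟩
    cases b
    · exact ⟨(false, - i - 5 - j), by simp only [dL, Prod.mk.injEq, true_and]; ring⟩
    · exact ⟨(true, - i - 2 - j), by simp only [dL, Prod.mk.injEq, true_and]; ring⟩

theorem actHom_mem (g : DihedralGroup 12) : actHom g ∈ symmetryGroup R := by
  refine ⟨fun x y => sqDist_act g x y, ?_, ?_⟩
  · ext z
    constructor
    · rintro ⟨_, ⟨p, rfl⟩, rfl⟩
      exact ⟨dP g p, (act_rpt g p).symm⟩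
    · rintro ⟨p, rfl⟩
      obtain ⟨q, rfl⟩ := dP_surj g p
      exact ⟨rpt q, ⟨q, rfl⟩, act_rpt g q⟩
  · ext s
    constructor
    · rintro ⟨_, ⟨l, rfl⟩, rfl⟩
      exact ⟨dL g l, (act_rln g l).symm⟩
    · rintro ⟨l, rfl⟩
      obtain ⟨q, rfl⟩ := dL_surj g l
      exact ⟨rln q, ⟨q, rfl⟩, act_rln g q⟩

theorem actHom_injective : Function.Injective actHom := by
  have key : ∀ g h : DihedralGroup 12, dP g (false, 0) = dP h (false, 0) →
      dP g (false, 3) = dP h (false, 3) → g = h := by
    intro g h
    rcases g with i | i <;> rcases h with j | j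
    · intro h1 _
      simp only [dP, Prod.mk.injEq, true_and, zero_add] at h1
      rw [h1]
    · intro h1 h2
      exfalso
      simp only [dP, Prod.mk.injEq, true_and] at h1 h2
      revert h1 h2
      revert i j
      decide
    · intro h1 h2
      exfalso
      simp only [dP, Prod.mk.injEq, true_and] at h1 h2
      revert h1 h2
      revert i j
      decide
    · intro h1 _
      simp only [dP, Prod.mk.injEq, true_and] at h1
      rw [sub_right_inj] at h1
      rw [h1]
  intro g h hgh
  have h3 : ∀ p, dP g p = dP h p := by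
    intro p
    apply R.pt_injective
    show rpt (dP g p) = rpt (dP h p)
    rw [← act_rpt, ← act_rpt]
    exact congrArg (fun e : Equiv.Perm (ℝ × ℝ) => e (rpt p)) hgh
  exact key g h (h3 _) (h3 _)

/-- Four times the squared distance of two points. -/
def D (p q : Idx) : ℤ√3 := (px p - px q) * (px p - px q) + (py p - py q) * (py p - py q)

theorem sqDist_rpt (p q : Idx) : sqDist (rpt p) (rpt q) = φ (D p q) / 4 := by
  simp only [sqDist, rpt, D, map_add, map_mul, map_sub]
  ring

theorem D_eq_of_sqDist (p q : Idx) (n : ℕ) [n.AtLeastTwo]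
    (h : sqDist (rpt p) (rpt q) = (OfNat.ofNat n : ℝ) / 4) : D p q = OfNat.ofNat n := by
  rw [sqDist_rpt] at h
  apply φ_injective
  rw [map_ofNat]
  linarith

theorem antipodal : ∀ a b : Idx, D a b = 16 → a.1 = false ∧ b = (false, a.2 + 6) := by
  decide

theorem orthogonal : ∀ (i : ZMod 12) (c : Idx), D (false, i) c = 8 → D (false, i + 6) c = 8 →
    c = (false, i + 3) ∨ c = (false, i - 3) := by
  decide

theorem rpt_zero : rpt (false, 0) = (1, 0) := by
  have h1 : px (false, 0) = 2 := by decide
  have h2 : py (false, 0) = 0 := by decide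
  simp only [rpt, h1, h2, map_ofNat, map_zero]
  norm_num

theorem rpt_three : rpt (false, 3) = (0, 1) := by
  have h1 : px (false, 3) = 0 := by decide
  have h2 : py (false, 3) = 2 := by decide
  simp only [rpt, h1, h2, map_ofNat, map_zero]
  norm_num

theorem rpt_six : rpt (false, 6) = (-1, 0) := by
  have h1 : px (false, 6) = -2 := by decide
  have h2 : py (false, 6) = 0 := by decide
  simp only [rpt, h1, h2, map_ofNat, map_zero, map_neg]
  norm_num

theorem three_points (u z : ℝ × ℝ) (h0 : sqDist u (rpt (false, 0)) = sqDist z (rpt (false, 0)))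
    (h3 : sqDist u (rpt (false, 3)) = sqDist z (rpt (false, 3)))
    (h6 : sqDist u (rpt (false, 6)) = sqDist z (rpt (false, 6))) : u = z := by
  rw [rpt_zero] at h0
  rw [rpt_three] at h3
  rw [rpt_six] at h6
  simp only [sqDist] at h0 h3 h6
  ext
  · linarith
  · linarith

theorem exists_act (g : Equiv.Perm (ℝ × ℝ)) (hg : g ∈ symmetryGroup R) :
    ∃ h : DihedralGroup 12, actHom h = g := by
  obtain ⟨hg1, hg2, -⟩ := hg
  have hpt : ∀ p : Idx, ∃ q : Idx, g (rpt p) = rpt q := by
    intro p
    have : g (rpt p) ∈ g '' Set.range R.pt := ⟨rpt p, ⟨p, rfl⟩, rfl⟩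
    rw [hg2] at this
    obtain ⟨q, hq⟩ := this
    exact ⟨q, hq.symm⟩
  obtain ⟨a, ha⟩ := hpt (false, 0)
  obtain ⟨b, hb⟩ := hpt (false, 6)
  obtain ⟨c, hc⟩ := hpt (false, 3)
  have hab : D a b = 16 := by
    apply D_eq_of_sqDist
    rw [← ha, ← hb, hg1, rpt_zero, rpt_six]
    norm_num [sqDist]
  have hac : D a c = 8 := by
    apply D_eq_of_sqDist
    rw [← ha, ← hc, hg1, rpt_zero, rpt_three]
    norm_num [sqDist]
  have hbc : D b c = 8 := by
    apply D_eq_of_sqDist
    rw [← hb, ← hc, hg1, rpt_six, rpt_three]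
    norm_num [sqDist]
  obtain ⟨ha1, hb1⟩ := antipodal a b hab
  obtain ⟨a1, i⟩ := a
  simp only at ha1
  subst ha1
  subst hb1
  have hex : ∃ h : DihedralGroup 12, dP h (false, 0) = (false, i) ∧
      dP h (false, 3) = c ∧ dP h (false, 6) = (false, i + 6) := by
    rcases orthogonal i c hac hbc with h | h
    · refine ⟨.r i, ?_, ?_, ?_⟩
      · simp [dP]
      · rw [h]; simp only [dP, Prod.mk.injEq, true_and]; ring
      · simp only [dP, Prod.mk.injEq, true_and]; ring
    · refine ⟨.sr (-i), ?_, ?_, ?_⟩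
      · simp [dP]
      · rw [h]; simp only [dP, Prod.mk.injEq, true_and]; ring
      · simp only [dP, Prod.mk.injEq, true_and]
        have : (-6 : ZMod 12) = 6 := by decide
        rw [this]; ring
  obtain ⟨h, h0, h3, h6⟩ := hex
  refine ⟨h, ?_⟩
  ext1 z
  rw [actHom_apply]
  have e0 : g (rpt (false, 0)) = act h (rpt (false, 0)) := by rw [act_rpt, h0, ha]
  have e3 : g (rpt (false, 3)) = act h (rpt (false, 3)) := by rw [act_rpt, h3, hc]
  have e6 : g (rpt (false, 6)) = act h (rpt (false, 6)) := by rw [act_rpt, h6, hb]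
  have key : act h⁻¹ (g z) = z := by
    apply three_points
    · rw [← sqDist_act h, ← act_mul, mul_inv_cancel, act_one, ← e0, hg1]
    · rw [← sqDist_act h, ← act_mul, mul_inv_cancel, act_one, ← e3, hg1]
    · rw [← sqDist_act h, ← act_mul, mul_inv_cancel, act_one, ← e6, hg1]
  calc act h z = act h (act h⁻¹ (g z)) := by rw [key]
    _ = g z := by rw [← act_mul, mul_inv_cancel, act_one]

theorem symmetryGroup_eq : symmetryGroup R = actHom.range := by
  ext g
  constructor
  · intro hg
    obtain ⟨h, hh⟩ := exists_act g hg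
    exact ⟨h, hh⟩
  · rintro ⟨h, rfl⟩
    exact actHom_mem h

theorem nonempty_iso : Nonempty (symmetryGroup R ≃* DihedralGroup 12) := by
  rw [symmetryGroup_eq]
  exact ⟨(MonoidHom.ofInjective actHom_injective).symm⟩

/-! ### Orbits and regular polygons -/

theorem C_one : C 1 = Real.sqrt 3 / 2 := by
  have h : c2 1 = ⟨0, 1⟩ := by decide
  unfold C
  rw [h, φ_mk]
  simp

theorem S_one : S 1 = 1 / 2 := by
  have h : s2 1 = 1 := by decide
  unfold S
  rw [h, map_one]

theorem C_S_natCast (n : ℕ) : C (n : ZMod 12) = Real.cos (2 * Real.pi * n / 12) ∧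
    S (n : ZMod 12) = Real.sin (2 * Real.pi * n / 12) := by
  induction n with
  | zero => simp [C_zero, S_zero]
  | succ n ih =>
    obtain ⟨h1, h2⟩ := ih
    have e : 2 * Real.pi * ((n + 1 : ℕ) : ℝ) / 12 = 2 * Real.pi * n / 12 + Real.pi / 6 := by
      push_cast; ring
    rw [e, Real.cos_add, Real.sin_add, Real.cos_pi_div_six, Real.sin_pi_div_six, ← h1, ← h2,
      Nat.cast_succ, C_add, S_add, C_one, S_one]
    exact ⟨rfl, rfl⟩

theorem exists_polar (u : ℝ × ℝ) (hu : u ≠ 0) :
    ∃ r θ : ℝ, 0 < r ∧ u = (r * Real.cos θ, r * Real.sin θ) := by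
  have hz : (⟨u.1, u.2⟩ : ℂ) ≠ 0 := by
    intro h
    apply hu
    have h1 := congrArg Complex.re h
    have h2 := congrArg Complex.im h
    simp only [Complex.zero_re, Complex.zero_im] at h1 h2
    ext
    · exact h1
    · exact h2
  refine ⟨‖(⟨u.1, u.2⟩ : ℂ)‖, Complex.arg ⟨u.1, u.2⟩, norm_pos_iff.mpr hz, ?_⟩
  rw [Complex.norm_mul_cos_arg, Complex.norm_mul_sin_arg]

theorem regular_orbit (u : ℝ × ℝ) (hu : u ≠ 0) :
    IsRegularPolygon 12 (Set.range (fun j : ZMod 12 => act (.r j) u)) := by
  obtain ⟨r, θ, hr, hu2⟩ := exists_polar u hu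
  refine ⟨(0, 0), r, θ, hr, ?_⟩
  have key : ∀ n : ℕ, act (.r (n : ZMod 12)) u =
      (0 + r * Real.cos (θ + 2 * Real.pi * n / (12 : ℕ)),
       0 + r * Real.sin (θ + 2 * Real.pi * n / (12 : ℕ))) := by
    intro n
    obtain ⟨h1, h2⟩ := C_S_natCast n
    push_cast
    rw [Real.cos_add, Real.sin_add, ← h1, ← h2, hu2]
    simp only [act, Prod.mk.injEq]
    constructor <;> ring
  ext z
  constructor
  · rintro ⟨j, rfl⟩
    refine ⟨⟨j.val, ZMod.val_lt j⟩, ?_⟩
    have := key j.val
    rw [ZMod.natCast_zmod_val] at this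
    exact this.symm
  · rintro ⟨j, rfl⟩
    exact ⟨((j : ℕ) : ZMod 12), key j⟩

/-- The class of a point or a line. -/
def cls (p : Idx) : Fin 2 := if p.1 then 1 else 0

theorem cls_eq_iff : ∀ p q : Idx, cls p = cls q ↔ p.1 = q.1 := by decide

theorem dP_fst (g : DihedralGroup 12) (p : Idx) : (dP g p).1 = p.1 := by
  rcases g with j | j <;> rcases p with ⟨b, i⟩ <;> cases b <;> rfl

theorem dL_fst (g : DihedralGroup 12) (p : Idx) : (dL g p).1 = p.1 := by
  rcases g with j | j <;> rcases p with ⟨b, i⟩ <;> cases b <;> rfl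

theorem orbit_points (p q : Idx) :
    cls p = cls q ↔ ∃ g ∈ symmetryGroup R, g (R.pt p) = R.pt q := by
  rw [cls_eq_iff]
  constructor
  · intro h
    refine ⟨actHom (.r (q.2 - p.2)), actHom_mem _, ?_⟩
    show act (.r (q.2 - p.2)) (rpt p) = rpt q
    rw [act_rpt]
    congr 1
    obtain ⟨b, i⟩ := p
    obtain ⟨b', i'⟩ := q
    simp only at h
    subst h
    simp [dP]
  · rintro ⟨g, hg, h⟩
    rw [symmetryGroup_eq] at hg
    obtain ⟨d, rfl⟩ := hg
    have h2 : rpt (dP d p) = rpt q := by
      rw [← act_rpt]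
      exact h
    have h3 : dP d p = q := R.pt_injective h2
    rw [← h3, dP_fst]

theorem orbit_lines (p q : Idx) :
    cls p = cls q ↔ ∃ g ∈ symmetryGroup R, g '' (R.ln p) = R.ln q := by
  rw [cls_eq_iff]
  constructor
  · intro h
    refine ⟨actHom (.r (q.2 - p.2)), actHom_mem _, ?_⟩
    show actHom (.r (q.2 - p.2)) '' (rln p) = rln q
    rw [act_rln]
    congr 1
    obtain ⟨b, i⟩ := p
    obtain ⟨b', i'⟩ := q
    simp only at h
    subst h
    simp [dL]
  · rintro ⟨g, hg, h⟩
    rw [symmetryGroup_eq] at hg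
    obtain ⟨d, rfl⟩ := hg
    have h2 : rln (dL d p) = rln q := by
      rw [← act_rln]
      exact h
    have h3 : dL d p = q := R.ln_injective h2
    rw [← h3, dL_fst]

theorem rpt_orbit (b : Bool) : R.pt '' {p : Idx | p.1 = b} =
    Set.range (fun j : ZMod 12 => act (.r j) (rpt (b, 0))) := by
  ext z
  constructor
  · rintro ⟨⟨b', i⟩, hp, rfl⟩
    simp only [Set.mem_ofPred_eq] at hp
    subst hp
    refine ⟨i, ?_⟩
    show act (.r i) (rpt (b', 0)) = rpt (b', i)
    rw [act_rpt]
    simp [dP]
  · rintro ⟨j, rfl⟩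
    refine ⟨(b, j), rfl, ?_⟩
    show rpt (b, j) = act (.r j) (rpt (b, 0))
    rw [act_rpt]
    simp [dP]

theorem rpt_ne_zero (b : Bool) : rpt (b, 0) ≠ 0 := by
  have h1 : px (b, 0) ≠ 0 ∨ py (b, 0) ≠ 0 := by
    revert b; decide
  intro h
  rw [Prod.ext_iff] at h
  obtain ⟨h2, h3⟩ := h
  simp only [rpt, Prod.fst_zero, Prod.snd_zero] at h2 h3
  rcases h1 with h1 | h1
  · apply h1
    apply φ_injective
    rw [map_zero]
    linarith
  · apply h1
    apply φ_injective
    rw [map_zero]
    linarith

theorem regular_class (a : Fin 2) : IsRegularPolygon 12 (R.pt '' {p : Idx | cls p = a}) := by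
  have h : ∃ b : Bool, {p : Idx | cls p = a} = {p : Idx | p.1 = b} := by
    rcases Fin.exists_fin_two.mp ⟨a, rfl⟩ with h | h
    · exact ⟨false, by ext p; subst h; revert p; decide⟩
    · exact ⟨true, by ext p; subst h; revert p; decide⟩
  obtain ⟨b, hb⟩ := h
  rw [hb, rpt_orbit]
  exact regular_orbit _ (rpt_ne_zero b)

theorem card_class : ∀ a : Fin 2, (Finset.univ.filter (fun p : Idx => cls p = a)).card = 12 := by
  decide

theorem card_lines : ∀ (p : Idx) (a : Fin 2),
    (Finset.univ.filter (fun l : Idx => Inc p l ∧ cls l = a)).card = 2 := by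
  decide

theorem card_points : ∀ (l : Idx) (a : Fin 2),
    (Finset.univ.filter (fun p : Idx => Inc p l ∧ cls p = a)).card = 2 := by
  decide

theorem astral : IsKAstral 2 12 R := by
  refine ⟨le_refl _, by norm_num, isFour, nonempty_iso, cls, cls, ?_, ?_, orbit_points,
    orbit_lines, ?_, ?_, regular_class, ?_, ?_⟩
  · intro a
    revert a
    decide
  · intro a
    revert a
    decide
  · intro a
    rw [ncard_filter]
    exact card_class a
  · intro a
    rw [ncard_filter]
    exact card_class a
  · intro p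
    refine ⟨0, 1, by decide, ?_, ?_⟩
    · rw [ncard_filter]; exact card_lines p 0
    · rw [ncard_filter]; exact card_lines p 1
  · intro l
    refine ⟨0, 1, by decide, ?_, ?_⟩
    · rw [ncard_filter]; exact card_points l 0
    · rw [ncard_filter]; exact card_points l 1

/-! ### The rational realization -/

/-- First homogeneous coordinate of the rational points. -/
def qX : Idx → ℤ
  | (false, i) => (![1, -6, -1, 0, 3, 4, -1, 6, 1, 0, -3, -4] : Fin 12 → ℤ) i
  | (true, i) => (![-2, 2, 3, -1, -3, 3, 2, -2, -3, 1, 3, -3] : Fin 12 → ℤ) i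

/-- Second homogeneous coordinate of the rational points. -/
def qY : Idx → ℤ
  | (false, i) => (![0, -3, -4, 1, -6, -1, 0, 3, 4, -1, 6, 1] : Fin 12 → ℤ) i
  | (true, i) => (![1, 3, -3, -2, 2, 3, -1, -3, 3, 2, -2, -3] : Fin 12 → ℤ) i

/-- Third homogeneous coordinate of the rational points. -/
def qZ : Idx → ℤ
  | (false, i) => (![1, 1, 1, 1, 1, 1, 1, 1, 1, 1, 1, 1] : Fin 12 → ℤ) i
  | (true, i) => (![1, 3, 2, 1, 3, 2, 1, 3, 2, 1, 3, 2] : Fin 12 → ℤ) i

/-- First coefficient of the rational lines. -/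
def qA : Idx → ℤ
  | (false, i) => (![-1, 3, -1, 3, 5, -1, 1, -3, 1, -3, -5, 1] : Fin 12 → ℤ) i
  | (true, i) => (![0, -3, -1, 1, 1, -5, 0, 3, 1, -1, -1, 5] : Fin 12 → ℤ) i

/-- Second coefficient of the rational lines. -/
def qB : Idx → ℤ
  | (false, i) => (![-3, -5, 1, -1, 3, -1, 3, 5, -1, 1, -3, 1] : Fin 12 → ℤ) i
  | (true, i) => (![-1, -1, 5, 0, -3, -1, 1, 1, -5, 0, 3, 1] : Fin 12 → ℤ) i

/-- Right hand side of the equation of the rational lines. -/
def qC : Idx → ℤ
  | (false, i) => (![-1, -3, -3, -1, -3, -3, -1, -3, -3, -1, -3, -3] : Fin 12 → ℤ) i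
  | (true, i) => (![-1, -3, -9, -1, -3, -9, -1, -3, -9, -1, -3, -9] : Fin 12 → ℤ) i

theorem q_exact : ∀ p l : Idx, qA l * qX p + qB l * qY p = qC l * qZ p ↔ Inc p l := by
  decide

theorem qZ_ne : ∀ p : Idx, qZ p ≠ 0 := by decide

theorem qAB_ne : ∀ l : Idx, qA l ≠ 0 ∨ qB l ≠ 0 := by decide

/-- The points of the rational realization. -/
def qpt (p : Idx) : ℚ × ℚ := ((qX p : ℚ) / qZ p, (qY p : ℚ) / qZ p)

/-- The lines of the rational realization. -/
def qln (l : Idx) : Set (ℚ × ℚ) := {z | (qA l : ℚ) * z.1 + (qB l : ℚ) * z.2 = qC l}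

theorem qmem_iff (p l : Idx) : qpt p ∈ qln l ↔ Inc p l := by
  rw [← q_exact]
  have hz : (qZ p : ℚ) ≠ 0 := by exact_mod_cast qZ_ne p
  simp only [qln, qpt, Set.mem_ofPred_eq]
  have e : (qA l : ℚ) * ((qX p : ℚ) / qZ p) + (qB l : ℚ) * ((qY p : ℚ) / qZ p) =
      ((qA l * qX p + qB l * qY p : ℤ) : ℚ) / qZ p := by
    push_cast; ring
  rw [e, div_eq_iff hz]
  norm_cast

/-- The rational realization of the configuration. -/
def Q : Realization Inc ℚ where
  pt := qpt
  ln := qln
  isLine_ln := by
    intro l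
    refine ⟨qA l, qB l, qC l, ?_, rfl⟩
    rcases qAB_ne l with h | h
    · left; exact_mod_cast h
    · right; exact_mod_cast h
  pt_injective := by
    intro p q h
    apply inc_ext_point
    intro l
    rw [← qmem_iff, ← qmem_iff, h]
  ln_injective := by
    intro l l' h
    apply inc_ext_line
    intro p
    rw [← qmem_iff, ← qmem_iff, h]
  mem_iff := qmem_iff

/-- There is an astral (that is, 2-astral) 4-configuration, with `m = 12` and `n = 24`, whose
underlying combinatorial configuration has a realization by points and lines of the rational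
plane `ℚ × ℚ`. -/
theorem result : ∃ (P L : Type) (I : P → L → Prop) (R : Realization I ℝ),
    IsKAstral 2 12 R ∧ Nonempty (Realization I ℚ) :=
  ⟨Idx, Idx, Inc, R, astral, ⟨Q⟩⟩

end Pool.Agent.Results.MP_b542c4_co.AstralRational
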